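import Pool.Agent.ZPU.Stmts

/-!
# ZPU row TBD: bounded order from finitely many residue classes
-/

set_option autoImplicit false

namespace Pool.Agent.ZPU.H10

open Polynomial Pool.Agent.ZPT Pool.Agent.ZP3

theorem norm_lt_of_sub {K : Type} [NormedField K] [IsUltrametricDist K] {a b : K}
    (ha : ‖a‖ < 1) (hb : ‖b‖ < 1) : ‖a - b‖ < 1 := by
  rw [sub_eq_add_neg]
  refine lt_of_le_of_lt (IsUltrametricDist.norm_add_le_max _ _) ?_
  rw [norm_neg]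
  exact max_lt ha hb

theorem tbd (hGnr : GNRStmt) (hTef : TEFStmt) : TBDStmt := by
  intro p hp K _ _ _ _ hE A B N hN
  haveI : Fact p.Prime := ⟨hp⟩
  obtain ⟨_, h2, _, h4⟩ := hTef p hp K hE
  have hex : ∃ i, 1 ≤ ‖(N.map (Int.castRingHom K)).coeff i‖ := by
    have hne : ∃ i, (bar p N).coeff i ≠ 0 := by
      by_contra hcon
      push Not at hcon
      exact hN (Polynomial.ext (fun i => by rw [hcon i, coeff_zero]))
    obtain ⟨i, hi⟩ := hne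
    refine ⟨i, ?_⟩
    unfold bar at hi
    rw [coeff_map, eq_intCast, Ne, ZMod.intCast_zmod_eq_zero_iff_dvd] at hi
    rw [coeff_map, eq_intCast]
    have e := hE ((N.coeff i : ℤ) : ℚ)
    rw [(padicNorm.int_eq_one_iff (N.coeff i)).mpr hi] at e
    rw [show ((N.coeff i : ℤ) : K) = (((N.coeff i : ℤ) : ℚ) : K) by norm_cast, e]
    simp
  obtain ⟨R, hR⟩ := hGnr K (N.map (Int.castRingHom K)) hex
  have hloc : ∀ ρ : K, ∃ M : ℕ, 1 ≤ M ∧ ∀ t ζ : K, Te p t → ‖t - ρ‖ < 1 → Tame p ζ →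
      ‖aeval t B‖ = 1 → ‖aeval t A - ζ * aeval t B‖ < 1 → ζ ^ M = 1 := by
    intro ρ
    by_cases hc : ∃ t ζ : K, Te p t ∧ ‖t - ρ‖ < 1 ∧ Tame p ζ ∧ ‖aeval t B‖ = 1 ∧
        ‖aeval t A - ζ * aeval t B‖ < 1
    · obtain ⟨t₀, ζ₀, ht0, hr0, hz0, hB0, hA0⟩ := hc
      obtain ⟨M, hM1, hM2, hM3⟩ := hz0
      refine ⟨M, hM1, ?_⟩
      intro t ζ ht hr hz hB hA
      have e1 : t = t₀ := by
        apply h4 t t₀ ht ht0
        have := norm_lt_of_sub hr hr0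
        rwa [sub_sub_sub_cancel_right] at this
      subst e1
      have e2 : ζ = ζ₀ := by
        apply h4 ζ ζ₀ (h2 ζ hz).1 (h2 ζ₀ ⟨M, hM1, hM2, hM3⟩).1
        have h5 := norm_lt_of_sub hA0 hA
        have e3 : aeval t A - ζ₀ * aeval t B - (aeval t A - ζ * aeval t B) =
            (ζ - ζ₀) * aeval t B := by ring
        rw [e3, norm_mul, hB, mul_one] at h5
        exact h5
      rw [e2, hM3]
    · refine ⟨1, le_rfl, ?_⟩
      intro t ζ ht hr hz hB hA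
      exact absurd ⟨t, ζ, ht, hr, hz, hB, hA⟩ hc
  choose M hM1 hM2 using hloc
  refine ⟨∏ ρ ∈ R, M ρ, Finset.one_le_prod'' (fun ρ => hM1 ρ), ?_⟩
  intro t ζ ht hN1 hz hB hA
  have ht1 : ‖t‖ ≤ 1 := ((hTef p hp K hE).1 t ht).2.1
  obtain ⟨ρ, hρ, hd⟩ := hR t ht1 (by
    rw [eval_map, ← algebraMap_int_eq, ← aeval_def]
    exact hN1)
  have h5 := hM2 ρ t ζ ht hd hz hB hA
  obtain ⟨c, hc⟩ := Finset.dvd_prod_of_mem M hρ
  rw [hc, pow_mul, h5, one_pow]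

end Pool.Agent.ZPU.H10
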